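import Pool.Agent.H22.LatF

namespace Pool.Agent.Results.MP_9bfc50_al.NoneNonHered

/-- A class of groups, given as a predicate. -/
abbrev Cls := (G : Type) → [Group G] → Prop

/-- A formation of finite groups. -/
def Formation (F : Cls) : Prop :=
  (∀ (G : Type) [Group G], F G → Finite G) ∧ F Unit ∧
  (∀ (G H : Type) [Group G] [Group H], Nonempty (G ≃* H) → F G → F H) ∧
  (∀ (G : Type) [Group G] (N : Subgroup G) [N.Normal], F G → F (G ⧸ N)) ∧
  (∀ (G : Type) [Group G] [Finite G] (M N : Subgroup G) [M.Normal] [N.Normal],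
    F (G ⧸ M) → F (G ⧸ N) → F (G ⧸ (M ⊓ N)))

/-- Saturated, which for formations is the same as local. -/
def Saturated (F : Cls) : Prop := ∀ (G : Type) [Group G] [Finite G], F (G ⧸ frattini G) → F G

/-- The `F`-residual: the intersection of all normal subgroups with quotient in `F`. -/
def residual (F : Cls) (G : Type) [Group G] : Subgroup G :=
  sInf {N | ∃ _ : N.Normal, F (G ⧸ N)}

/-- `H` is `F`-subnormal in `G`. -/
def FSubnormal (F : Cls) {G : Type} [Group G] (H : Subgroup G) : Prop :=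
  ∃ (n : ℕ) (c : ℕ → Subgroup G), c 0 = H ∧ c n = ⊤ ∧ ∀ i < n,
    c i ⋖ c (i + 1) ∧ (residual F (c (i + 1))).map (c (i + 1)).subtype ≤ c i

/-- Property (L). -/
def PropL (F : Cls) : Prop := ∀ (G : Type) [Group G] [Finite G] (H K : Subgroup G),
  FSubnormal F H → FSubnormal F K → FSubnormal F (H ⊓ K) ∧ FSubnormal F (H ⊔ K)

theorem result (F : Cls) (hF : Formation F) (hS : Saturated F) (hL : PropL F)
    (G : Type) [Group G] (hG : F G) (H : Subgroup G) : F H := by
  obtain ⟨h1, h0, h2, h4, h5⟩ := hF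
  have hF : H22.FormLat.IsForm F := ⟨h1, h2, h4, fun G _ _ N L _ _ e a b =>
    h2 _ _ ⟨(QuotientGroup.quotientMulEquivOfEq e).trans QuotientGroup.quotientBot⟩ (h5 G N L a b)⟩
  have r : ∀ (G : Type) [Group G] [Finite G] (L K : Subgroup G),
      (residual F K).map K.subtype ≤ L ↔ H22.GLS.Rs F L K := fun G _ _ L K => by
    refine ⟨fun h => ?_, fun ⟨N, a, b, c⟩ => Subgroup.map_le_iff_le_comap.2
      ((sInf_le (show N ∈ {N : Subgroup K | ∃ _ : N.Normal, F (K ⧸ N)} from ⟨a, b⟩)).trans c)⟩
    obtain ⟨R, r1, r2⟩ := (wellFounded_lt (α := Subgroup K)).has_min {R | H22.FormLat.Fq F R}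
      ⟨⊤, H22.FormLat.Fq_top hF h0 _⟩
    refine H22.GLS.rs_of hF r1 (le_trans (le_sInf ?_) (Subgroup.map_le_iff_le_comap.1 h))
    rintro N ⟨_, b⟩
    exact inf_eq_left.1 (inf_le_left.eq_or_lt.resolve_right
      (r2 _ (r1.inf hF (H22.FormLat.Fq.mk N b))))
  have s : ∀ (G : Type) [Group G] [Finite G] (K : Subgroup G), FSubnormal F K ↔ H22.GLS.Sn F K :=
    fun G _ _ K => by
    constructor
    · rintro ⟨n, c, rfl, a, b⟩
      induction n generalizing c with
      | zero => exact a ▸ H22.GLS.Sn.top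
      | succ n ih =>
        exact (ih (fun i => c (i + 1)) a fun i hi => b (i + 1) (by omega)).step _ _
          (b 0 (by omega)).1.lt (fun M u v => (b 0 (by omega)).1.eq_or_eq u v)
          ((r G _ _).1 (b 0 (by omega)).2)
    · intro h
      induction h with
      | top => exact ⟨0, fun _ => ⊤, rfl, rfl, fun i hi => by omega⟩
      | step K L _ u v w ih =>
        obtain ⟨n, c, rfl, a, b⟩ := ih
        refine ⟨n + 1, fun i => Nat.rec L (fun j _ => c j) i, rfl, a, fun i hi => ?_⟩
        cases i with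
        | zero => exact ⟨covBy_iff_lt_and_eq_or_eq.2 ⟨u, v⟩, (r G _ _).2 w⟩
        | succ i => exact b i (by omega)
  exact H22.GLS.hered hF hS (fun G _ _ A B a b => by
    simpa only [s] using hL G A B ((s G A).2 a) ((s G B).2 b)) hG H

end Pool.Agent.Results.MP_9bfc50_al.NoneNonHered
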